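import Pool.Agent.Helper87.ML2.Class

set_option autoImplicit false

/-! Classification of the finite modular lattices of length four with self-dual intervals which
contain a projective plane and are not complemented. -/

namespace Pool.Agent.Results.MP_34a2f2_co.LengthFour

open Pool.Agent.Helper87.ML Pool.Agent.Helper87.ML2

universe u

theorem result :
    (∀ (L : Type u) [Lattice L] [BoundedOrder L] [Finite L],
      (IsModularLattice L ∧ SD' L ∧ Order.krullDim L = 4 ∧ ¬ ComplementedLattice L ∧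
        ¬ PlaneFree L) ↔
      ∃ (P : Type u) (_ : Lattice P) (_ : BoundedOrder P) (p : P)
        (σ : Equiv.Perm {l : P // p ⋖ l}), Finite P ∧ IsPlane (⊥ : P) ⊤ ∧ ⊥ ⋖ p ∧
        Nonempty (P ≃o Pᵒᵈ) ∧ SameTwist p σ p σ⁻¹ ∧ IsTwist P p σ L) ∧
    (∀ (P : Type u) [Lattice P] [BoundedOrder P] [Finite P] (p : P)
      (σ : Equiv.Perm {l : P // p ⋖ l}), IsPlane (⊥ : P) ⊤ → ⊥ ⋖ p →
      ∃ (L : Type u) (_ : Lattice L) (_ : BoundedOrder L), Finite L ∧ IsTwist P p σ L) ∧
    (∀ (P P' : Type u) [Lattice P] [BoundedOrder P] [Lattice P'] [BoundedOrder P'] (p : P)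
      (σ : Equiv.Perm {l : P // p ⋖ l}) (p' : P') (σ' : Equiv.Perm {l : P' // p' ⋖ l})
      (L L' : Type u) [Lattice L] [BoundedOrder L] [Lattice L'] [BoundedOrder L'],
      IsPlane (⊥ : P) ⊤ → ⊥ ⋖ p → IsPlane (⊥ : P') ⊤ → ⊥ ⋖ p' →
      IsTwist P p σ L → IsTwist P' p' σ' L' →
      (Nonempty (L ≃o L') ↔ SameTwist p σ p' σ')) := by
  refine ⟨?_, ?_, ?_⟩
  · intro L _ _ _
    exact length_four L
  · intro P _ _ _ p σ hP hp
    exact ⟨Tw σ hP hp, inferInstance, inferInstance, inferInstance, isTwist_tw σ hP hp⟩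
  · intro P P' _ _ _ _ p σ p' σ' L L' _ _ _ _ hP hp hP' hp' h h'
    exact twist_iso_iff hP hp hP' hp' h h'

end Pool.Agent.Results.MP_34a2f2_co.LengthFour
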