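import Pool.Agent.PLB.Fin
import Pool.Agent.PLB.UnD

set_option autoImplicit false

/-! Classification of the modular lattices with finite principal ideals, all of whose intervals are
self-dual, in which every element `x` and its covers have a join `x⁺` such that `[x, x⁺]` is a
projective plane; and its finite form. -/

namespace Pool.Agent.Results.MP_34a2f2_co.PlaneBlocks

open Pool.Agent.Helper87.ML Pool.Agent.RIG Pool.Agent.PLB

universe u

/-- (1) the classification; (2) the models are lattices, and the division ring with its valuation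
is determined by the lattice; (3) the finite form: for all `c`, `j` there is a depth `N` which forces
the interval `[z, z⁺⁺…⁺]` (`j` times) to be a lattice of submodules of `(O / π ^ j) ^ 3`, and all these
lattices occur, at every depth, in finite lattices. -/
theorem result :
    (∀ (L : Type u) [Lattice L],
      (IsModularLattice L ∧ (∀ x : L, (Set.Iic x).Finite) ∧ Nonempty L ∧
        (∃ s : L → L, IsUp s ∧ ∀ x, IsPlane x (s x)) ∧ SD' L) ↔
      ∃ (K : Type u) (_ : DivisionRing K) (v : K → WithTop ℤ), IsCDV K v ∧ Quat K ∧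
        Nonempty (L ≃o Lat K v)) ∧
    (∀ (K : Type u) [DivisionRing K] (v : K → WithTop ℤ), IsCDV K v → ∀ x y : Lat K v,
      (∃ j, IsLUB {x, y} j) ∧ ∃ g, IsGLB {x, y} g) ∧
    (∀ (K K' : Type u) [DivisionRing K] [DivisionRing K'] (v : K → WithTop ℤ)
      (v' : K' → WithTop ℤ), IsCDV K v → IsCDV K' v' → Quat K → Quat K' →
      (Nonempty (Lat K v ≃o Lat K' v') ↔ ∃ f : K ≃+* K', ∀ a, v' (f a) = v a)) ∧
    (∀ c j : ℕ, ∃ N : ℕ, ∀ (M : Type u) [Lattice M] (s : M → M) (z : M),
      GoodTo M s z N → {p | z ⋖ p}.ncard ≤ c → IsBox' j z (s^[j] z)) ∧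
    (∀ (K : Type) [DivisionRing K] (v : K → WithTop ℤ), IsCDV K v → Quat K → ∀ N : ℕ,
      ∃ (M : Type) (_ : Lattice M) (s : M → M) (z : M), Finite M ∧ GoodTo M s z N ∧
        ∀ j ≤ N, Nonempty (Set.Icc z (s^[j] z) ≃o
          {x : Lat K v // ∀ w ∈ x.1, ∀ i, ((-(j : ℤ) : ℤ) : WithTop ℤ) ≤ v (w i)})) := by
  refine ⟨fun L _ => planes_iff L, fun K _ v hv x y => lat_sup_inf hv x y, ?_,
    fun c j => deep' c j, fun _ _ _ hv hq N => box_deep' hv hq N⟩
  intro K K' _ _ v v' hv hv' hq hq'
  exact irr hv ((qt_main hv).2 hq) hv' ((qt_main hv').2 hq')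

end Pool.Agent.Results.MP_34a2f2_co.PlaneBlocks
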