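import Pool.Agent.Helper87.ML.Final

set_option autoImplicit false

/-! Classification of the finite and the finitary modular lattices all of whose intervals are
self-dual and none of whose intervals is a projective plane. -/

namespace Pool.Agent.Results.MP_34a2f2_co.PlaneFree

open Pool.Agent.Helper87.ML Pool.Agent.Helper87.ML.TreePt

universe u

theorem result :
    (∀ (L : Type u) [Lattice L] [Nonempty L], (∀ x : L, (Set.Iic x).Finite) →
      ((IsModularLattice L ∧ (∀ x : L, {y | x ⋖ y}.Finite) ∧ PlaneFree L ∧ SD' L) ↔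
        ∃ (ι : Type) (_ : Finite ι) (n : ι → ℕ) (hn : ∀ i, 2 ≤ n i) (d c : ι → ℕ∞),
          (∀ i, Reduced (n i) (d i) (c i)) ∧
            Nonempty (L ≃o ∀ i, Model (hn i) (d i) (c i)))) ∧
    (∀ (ι : Type) [Finite ι] (n : ι → ℕ) (hn : ∀ i, 2 ≤ n i) (d c : ι → ℕ∞),
      (∀ x y : (∀ i, Model (hn i) (d i) (c i)), (∃ j, IsLUB {x, y} j) ∧ ∃ g, IsGLB {x, y} g) ∧
      (∀ x : (∀ i, Model (hn i) (d i) (c i)), (Set.Iic x).Finite) ∧
      (Finite (∀ i, Model (hn i) (d i) (c i)) ↔ ∀ i, d i ≠ ⊤ ∧ c i ≠ ⊤)) ∧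
    (∀ (ι ι' : Type) (n : ι → ℕ) (hn : ∀ i, 2 ≤ n i) (d c : ι → ℕ∞)
      (n' : ι' → ℕ) (hn' : ∀ i, 2 ≤ n' i) (d' c' : ι' → ℕ∞),
      (∀ i, Reduced (n i) (d i) (c i)) → (∀ i, Reduced (n' i) (d' i) (c' i)) →
      (Nonempty ((∀ i, Model (hn i) (d i) (c i)) ≃o ∀ i, Model (hn' i) (d' i) (c' i)) ↔
        ∃ σ : ι ≃ ι', ∀ i, n i = n' (σ i) ∧ d i = d' (σ i) ∧ c i = c' (σ i))) := by
  refine ⟨?_, ?_, ?_⟩
  · intro L _ _ hfin
    exact planeFree_iff_red hfin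
  · intro ι _ n hn d c
    exact prod_lattice hn d c
  · intro ι ι' n hn d c n' hn' d' c' hr hr'
    exact prod_iso_iff hn d c hn' d' c' hr hr'

end Pool.Agent.Results.MP_34a2f2_co.PlaneFree
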