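import Pool.Agent.RIG.TR

set_option autoImplicit false

/-! Modular lattices with self-dual intervals whose blocks `[y, y⁺]` have constant length:
self-similarity, homogeneity and transvections. -/

namespace Pool.Agent.Results.MP_34a2f2_co.Transvections

open Pool.Agent.Helper87.ML

universe u

theorem result (L : Type u) [Lattice L] (hm : IsModularLattice L)
    (hfin : ∀ x y : L, (Set.Icc x y).Finite) (hSD : SD' L)
    (s : L → L) (hs : ∀ x, IsLUB (insert x {y | x ⋖ y}) (s x))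
    (z t : L) (n : ℕ) (hz : ∀ y, z ≤ y → s y ≤ t → Order.krullDim (Set.Icc y (s y)) = n) (j : ℕ) :
    (∀ u v : L, z ≤ u → u ≤ v → s^[j] v ≤ t →
      Nonempty (Set.Icc u (s^[j] u) ≃o Set.Icc v (s^[j] v))) ∧
    (∀ a b : L, z ≤ a → z ≤ b → s^[j] a ≤ t → s^[j] b ≤ t → (s^[j] a ≤ s^[j] b ↔ a ≤ b)) ∧
    (∀ v : L, s^[j] z ≤ v → s^[j] v ≤ t → ∃ w, z ≤ w ∧ s^[j] w = v) ∧
    ∀ (M : ℕ) (l c c' : Set.Icc z (s^[j] z)), s^[(M + 3) * j] z ≤ t →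
      Nat.card (Set.Icc z (l : L) ≃o Set.Icc z (l : L)) < 2 ^ M →
      (c : L) ⊓ l = z → (c : L) ⊔ l = s^[j] z → (c' : L) ⊓ l = z → (c' : L) ⊔ l = s^[j] z →
      IsChain (· ≤ ·) (Set.Icc z (c : L)) → (Set.Icc z (c : L)).ncard = j + 1 →
      ∃ φ : Set.Icc z (s^[j] z) ≃o Set.Icc z (s^[j] z), (∀ y ≤ l, φ y = y) ∧ φ c = c' := by
  have hK : Pool.Agent.RIG.Key s z t := Pool.Agent.RIG.key_of_dim hSD hs n hz
  refine ⟨?_, ?_, ?_, ?_⟩
  · intro u v hu huv hv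
    obtain ⟨φ⟩ := Pool.Agent.RIG.cube_iso hSD hs hK j hu huv hv
    exact ⟨φ.toIso⟩
  · intro a b ha hb hat hbt
    exact ⟨Pool.Agent.RIG.it_refl hSD hs hK j ha hb hat hbt, Pool.Agent.RIG.it_mono hs j⟩
  · intro v h1 h2
    obtain ⟨w, h3, -, h4⟩ := Pool.Agent.RIG.surj0 hfin hSD hs hK j h1 h2
    exact ⟨w, h3, h4⟩
  · intro M l c c' ht hM h1 h2 h1' h2' hc hcj
    obtain ⟨f, hf1, hf2⟩ := Pool.Agent.RIG.tr_main hfin hSD hs
      (fun y hy1 hy2 => hz y hy1 (hy2.trans ht)) h1 h2 h1' h2' hc hcj hM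
    refine ⟨f.toIso, fun y hy => Subtype.ext (hf1 y y.2.1 hy), Subtype.ext hf2⟩

end Pool.Agent.Results.MP_34a2f2_co.Transvections
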